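import Pool.Agent.Helper5.WD.Stmts

/-! Row XCMP: one component (weighted degrees). -/

set_option autoImplicit false

open Finset Pool.Agent.Helper8.UN Pool.Agent.Helper5.FV

namespace Pool.Agent.Helper5.WD

theorem cmp_fac1 {a0 a1 a2 k j : ℝ} (h1 : (k - j) * a0 = k * a1)
    (h2 : (k + 1 - j) * a2 = (k + 1) * a0) (hj : 0 ≤ j) (hk : 0 < k - j) :
    a1 * a2 ≤ a0 ^ 2 := by
  have hp : 0 < k * (k + 1 - j) := mul_pos (by linarith) (by linarith)
  refine le_of_mul_le_mul_left ?_ hp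
  have e : k * (k + 1 - j) * (a1 * a2) = (k - j) * (k + 1) * a0 ^ 2 := by
    calc k * (k + 1 - j) * (a1 * a2) = (k * a1) * ((k + 1 - j) * a2) := by ring
      _ = ((k - j) * a0) * ((k + 1) * a0) := by rw [h1, h2]
      _ = _ := by ring
  rw [e]
  exact mul_le_mul_of_nonneg_right (by nlinarith) (sq_nonneg _)

theorem cmp_fac2 {a0 a1 a2 k j : ℝ} (h1 : (k - j) * a0 = k * a1)
    (h2 : (k + 1 - j) * a2 = (k + 1) * a0) (hj : 0 ≤ j) (hk : 0 < k) (hjk : 2 * j ≤ k)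
    (ha1 : 0 < a1) (ha2 : 0 < a2) : a0 ^ 2 ≤ Real.exp (2 * j / k ^ 2) * (a1 * a2) := by
  have hkj : 0 < k - j := by linarith
  have hp : 0 < (k - j) * (k + 1) := mul_pos hkj (by linarith)
  have e : (k - j) * (k + 1) * a0 ^ 2 = k * (k + 1 - j) * (a1 * a2) := by
    calc (k - j) * (k + 1) * a0 ^ 2 = ((k - j) * a0) * ((k + 1) * a0) := by ring
      _ = (k * a1) * ((k + 1 - j) * a2) := by rw [h1, h2]
      _ = _ := by ring
  have h3 : a0 ^ 2 = (1 + j / ((k - j) * (k + 1))) * (a1 * a2) := by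
    have h4 : (k - j) * (k + 1) * a0 ^ 2 =
        (k - j) * (k + 1) * ((1 + j / ((k - j) * (k + 1))) * (a1 * a2)) := by
      rw [e]
      field_simp
      ring
    exact mul_left_cancel₀ hp.ne' h4
  rw [h3]
  refine mul_le_mul_of_nonneg_right ?_ (mul_pos ha1 ha2).le
  have h5 : j / ((k - j) * (k + 1)) ≤ 2 * j / k ^ 2 := by
    rw [div_le_div_iff₀ hp (by positivity)]
    have h6 : k ^ 2 ≤ 2 * ((k - j) * (k + 1)) := by nlinarith
    calc j * k ^ 2 ≤ j * (2 * ((k - j) * (k + 1))) := mul_le_mul_of_nonneg_left h6 hj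
      _ = 2 * j * ((k - j) * (k + 1)) := by ring
  have h7 := Real.add_one_le_exp (2 * j / k ^ 2)
  linarith

theorem cmp_fac3 {a0 a1 k j : ℝ} (h1 : (k - j) * a0 = k * a1) (hj : 0 ≤ j) (hk : 0 < k)
    (hjk : 2 * j ≤ k) (ha1 : 0 < a1) (ha0 : 0 < a0) :
    a1 ≤ a0 ∧ a0 ≤ Real.exp (2 * j / k) * a1 := by
  have hkj : 0 < k - j := by linarith
  constructor
  · refine le_of_mul_le_mul_left ?_ hk
    rw [← h1]
    exact mul_le_mul_of_nonneg_right (by linarith) ha0.le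
  · have h2 : a0 = (1 + j / (k - j)) * a1 := by
      have h4 : (k - j) * a0 = (k - j) * ((1 + j / (k - j)) * a1) := by
        rw [h1]
        field_simp
        ring
      exact mul_left_cancel₀ hkj.ne' h4
    rw [h2]
    refine mul_le_mul_of_nonneg_right ?_ ha1.le
    have h5 : j / (k - j) ≤ 2 * j / k := by
      rw [div_le_div_iff₀ hkj hk]
      nlinarith
    have h7 := Real.add_one_le_exp (2 * j / k)
    linarith

/-- first ratio, both directions -/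
theorem cmp_rat {a0 a1 p0 p1 uk0 uk1 u1 u0 e1 e2 e3 e : ℝ} (ha1 : 0 < a1)
    (h01 : a1 ≤ a0) (h02 : a0 ≤ Real.exp e3 * a1) (hp0 : 0 < p0) (hp1 : 0 < p1)
    (hu1 : 0 < u1) (hu0 : 0 < u0) (huk0 : 0 < uk0)
    (r1 : p1 * uk0 ≤ uk1 * p0) (r2 : uk1 * p0 ≤ Real.exp e1 * (p1 * uk0))
    (s1 : u0 * uk0 ≤ uk1 * u1) (s2 : uk1 * u1 ≤ Real.exp e2 * (u0 * uk0))
    (he1 : e1 ≤ e) (he2 : e2 + e3 ≤ e) :
    u0 * (a1 * p0) ≤ Real.exp e * (a0 * p1 * u1) ∧
      a0 * p1 * u1 ≤ Real.exp e * (u0 * (a1 * p0)) := by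
  constructor
  · have t1 : u0 * p0 ≤ Real.exp e1 * (p1 * u1) := by
      refine le_of_mul_le_mul_right ?_ huk0
      calc u0 * p0 * uk0 = u0 * uk0 * p0 := by ring
        _ ≤ uk1 * u1 * p0 := mul_le_mul_of_nonneg_right s1 hp0.le
        _ = uk1 * p0 * u1 := by ring
        _ ≤ Real.exp e1 * (p1 * uk0) * u1 := mul_le_mul_of_nonneg_right r2 hu1.le
        _ = Real.exp e1 * (p1 * u1) * uk0 := by ring
    calc u0 * (a1 * p0) = a1 * (u0 * p0) := by ring
      _ ≤ a1 * (Real.exp e1 * (p1 * u1)) := mul_le_mul_of_nonneg_left t1 ha1.le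
      _ ≤ a0 * (Real.exp e * (p1 * u1)) := by
          refine mul_le_mul h01 ?_ (by positivity) (by linarith)
          exact mul_le_mul_of_nonneg_right (Real.exp_le_exp.2 he1) (by positivity)
      _ = _ := by ring
  · have t1 : p1 * u1 ≤ Real.exp e2 * (u0 * p0) := by
      refine le_of_mul_le_mul_right ?_ huk0
      calc p1 * u1 * uk0 = p1 * uk0 * u1 := by ring
        _ ≤ uk1 * p0 * u1 := mul_le_mul_of_nonneg_right r1 hu1.le
        _ = uk1 * u1 * p0 := by ring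
        _ ≤ Real.exp e2 * (u0 * uk0) * p0 := mul_le_mul_of_nonneg_right s2 hp0.le
        _ = Real.exp e2 * (u0 * p0) * uk0 := by ring
    calc a0 * p1 * u1 = a0 * (p1 * u1) := by ring
      _ ≤ (Real.exp e3 * a1) * (Real.exp e2 * (u0 * p0)) :=
          mul_le_mul h02 t1 (by positivity) (by positivity)
      _ = Real.exp (e2 + e3) * (u0 * (a1 * p0)) := by rw [Real.exp_add]; ring
      _ ≤ _ := mul_le_mul_of_nonneg_right (Real.exp_le_exp.2 he2) (by positivity)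

/-- thresholds -/
theorem cmp_thr : ∃ n₀ : ℕ, ∀ n ≥ n₀, 1 ≤ Real.log (n : ℝ) ∧ 20 ≤ Real.sqrt n ∧
    10 * Real.log n + 1 ≤ 9 / 100000 * Real.sqrt n := by
  have t := tendsto_natCast_atTop_atTop (R := ℝ)
  have e1 : ∀ᶠ n : ℕ in Filter.atTop, 1 ≤ Real.log (n : ℝ) :=
    (Real.tendsto_log_atTop.comp t).eventually_ge_atTop 1
  have e2 : ∀ᶠ n : ℕ in Filter.atTop, 100000 ≤ Real.sqrt (n : ℝ) :=
    (Real.tendsto_sqrt_atTop.comp t).eventually_ge_atTop 100000
  have e3 : ∀ᶠ n : ℕ in Filter.atTop, ‖Real.log (n : ℝ)‖ ≤ 1 / 200000 * ‖(n : ℝ) ^ (1 / 2 : ℝ)‖ :=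
    t.eventually ((isLittleO_log_rpow_atTop (by norm_num : (0:ℝ) < 1 / 2)).bound
      (by norm_num : (0:ℝ) < 1 / 200000))
  obtain ⟨n₀, h⟩ := Filter.eventually_atTop.1 (e1.and (e2.and e3))
  refine ⟨n₀, fun n hn => ?_⟩
  obtain ⟨a1, a2, a3⟩ := h n hn
  rw [← Real.sqrt_eq_rpow, Real.norm_eq_abs, Real.norm_eq_abs,
    abs_of_nonneg (Real.sqrt_nonneg _)] at a3
  have a4 := le_abs_self (Real.log (n : ℝ))
  exact ⟨a1, by linarith, by linarith⟩

theorem st_XCMP (hSUB : ST_SUB) (hREG : ST_XREG) (hQQC : ST_QQC) (hSTW : ST_GSTW)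
    (hRTI : ST_GRTI) (hSHF : ST_GSHF) : ST_XCMP := by
  classical
  obtain ⟨n1, H1⟩ := hSTW
  obtain ⟨n2, H2⟩ := hRTI
  obtain ⟨n3, H3⟩ := hSHF
  obtain ⟨n4, H4⟩ := cmp_thr
  refine ⟨max (max n1 n2) (max n3 n4), fun n hn D0 r k E W0 Q hR hQ hun hk1 hk2 => ?_⟩
  have g1 : n ≥ n1 := le_trans (le_trans (le_max_left _ _) (le_max_left _ _)) hn
  have g2 : n ≥ n2 := le_trans (le_trans (le_max_right _ _) (le_max_left _ _)) hn
  have g3 : n ≥ n3 := le_trans (le_trans (le_max_left _ _) (le_max_right _ _)) hn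
  have g4 : n ≥ n4 := le_trans (le_trans (le_max_right _ _) (le_max_right _ _)) hn
  obtain ⟨hl1, hs20, hls⟩ := H4 n g4
  obtain ⟨hjw, hsub⟩ := hQQC n E W0 Q hQ
  have hReg := hREG n D0 r E W0 hR
  have hw0 := hR.w0
  obtain ⟨U, hU⟩ : ∃ U : Finset (Fin n), U = univ \ W0 := ⟨_, rfl⟩
  obtain ⟨W, hW⟩ : ∃ W : Finset (Fin n), W = univ \ un Q := ⟨_, rfl⟩
  rw [← hU] at hReg hsub
  rw [← hW] at hsub
  have eW : ∀ m, PP (E.filter (fun e => e ⊆ U)) W m = PP E W m := fun m =>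
    (hSUB n m E U W hsub).1
  have eU : ∀ m, PP (E.filter (fun e => e ⊆ U)) U m = PP E U m := fun m =>
    (hSUB n m E U U subset_rfl).1
  -- sizes
  have c1 : (W.card : ℝ) + (un Q).card = n := by
    have := card_sdiff_add_card_eq_card (subset_univ (un Q))
    rw [card_univ, Fintype.card_fin, ← hW] at this
    exact_mod_cast this
  have c2 : (U.card : ℝ) + W0.card = n := by
    have := card_sdiff_add_card_eq_card (subset_univ W0)
    rw [card_univ, Fintype.card_fin, ← hU] at this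
    exact_mod_cast this
  have c3 : ((U \ W).card : ℝ) ≤ (un Q).card := by
    have : U \ W ⊆ un Q := by
      intro v hv
      rw [mem_sdiff, hW, mem_sdiff] at hv
      by_contra hc
      exact hv.2 ⟨mem_univ _, hc⟩
    exact_mod_cast card_le_card this
  have hun' : ((un Q).card : ℝ) + 1 ≤ (LL n W0 : ℝ) + W0.card := by exact_mod_cast hun
  obtain ⟨x, hx⟩ : ∃ x : ℝ, x = n := ⟨_, rfl⟩
  obtain ⟨l, hl⟩ : ∃ l : ℝ, l = Real.log n := ⟨_, rfl⟩
  obtain ⟨s, hs⟩ : ∃ s : ℝ, s = Real.sqrt n := ⟨_, rfl⟩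
  obtain ⟨w, hw⟩ : ∃ w : ℝ, w = W0.card := ⟨_, rfl⟩
  obtain ⟨q, hq⟩ : ∃ q : ℝ, q = (un Q).card := ⟨_, rfl⟩
  obtain ⟨j, hj⟩ : ∃ j : ℝ, j = Q.card := ⟨_, rfl⟩
  obtain ⟨κ, hκ⟩ : ∃ κ : ℝ, κ = k := ⟨_, rfl⟩
  have hsx : s * s = x := by rw [hs, hx]; exact Real.mul_self_sqrt (Nat.cast_nonneg n)
  have hLL : (LL n W0 : ℝ) < 10 * (w + 1) * l + 1 := by
    have h0 : (0:ℝ) ≤ 10 * ((W0.card : ℝ) + 1) * Real.log n := by positivity
    have := Nat.ceil_lt_add_one h0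
    rw [hw, hl]
    exact this
  rw [← hw, ← hs, ← hl] at hw0
  rw [← hl] at hl1 hls
  rw [← hs] at hs20 hls
  rw [← hl, ← hx, ← hκ] at hk1 hk2
  rw [← hq, ← hw] at hun'
  rw [← hq, ← hx] at c1
  rw [← hw, ← hx] at c2
  rw [← hq] at c3
  have hl0 : 0 < l := by linarith
  have hs0 : 0 < s := by linarith
  have hjw' : j ≤ w := by rw [hj, hw]; exact_mod_cast hjw
  have hj0 : 0 ≤ j := by rw [hj]; positivity
  have hwnn : 0 ≤ w := by rw [hw]; positivity
  obtain ⟨z, hz⟩ : ∃ z : ℝ, z = s / l := ⟨_, rfl⟩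
  have hz0 : 0 < z := by rw [hz]; positivity
  have hzl : z * l = s := by rw [hz]; field_simp
  have hzs : z ≤ s := by
    have := le_mul_of_one_le_right hz0.le hl1
    rw [hzl] at this
    exact this
  have hy : x / l = s * z := by rw [hz, ← hsx]; field_simp
  rw [hy] at hk1 hk2
  rw [← hz] at hw0
  have hwl : w * l ≤ 1 / 100000 * s := by
    calc w * l ≤ (1 / 100000 * z) * l := mul_le_mul_of_nonneg_right hw0 hl0.le
      _ = 1 / 100000 * (z * l) := by ring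
      _ = _ := by rw [hzl]
  have hws : w ≤ 1 / 100000 * s := by linarith [mul_le_mul_of_nonneg_left hl1 hwnn]
  have hq2 : q ≤ 2 / 10000 * s := by
    have e1 : 10 * (w + 1) * l = 10 * (w * l) + 10 * l := by ring
    rw [e1] at hLL
    linarith
  have hz1 : 1 ≤ z := by
    rw [hz, le_div_iff₀ hl0]
    linarith
  have hsz0 : 0 < s * z := by positivity
  have hzsz : 20 * z ≤ s * z := mul_le_mul_of_nonneg_right hs20 hz0.le
  have hs2 : 20 * s ≤ x := by rw [← hsx]; exact mul_le_mul_of_nonneg_right hs20 hs0.le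
  have hjz : j ≤ 1 / 100000 * z := hjw'.trans hw0
  have hκ0 : 0 < κ := by linarith
  have hjκ : j ≤ 1 / 1000000 * κ := by linarith
  have hjk : Q.card ≤ k := by
    have : (Q.card : ℝ) ≤ k := by rw [← hj, ← hκ]; linarith
    exact_mod_cast this
  have hKc : ((k - Q.card : ℕ) : ℝ) = κ - j := by
    rw [Nat.cast_sub hjk, hκ, hj]
  have hk1' : 1 ≤ k := by
    have : (0:ℝ) < k := by rw [← hκ]; exact hκ0
    exact_mod_cast this
  have hyn : (n : ℝ) / Real.log n = s * z := by rw [← hl, ← hx]; exact hy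
  -- the rows
  have lowK : 665 / 1000 * ((n : ℝ) / Real.log n) ≤ ((k - Q.card : ℕ) : ℝ) := by
    rw [hKc, hyn]; linarith
  have upK : ((k - Q.card : ℕ) : ℝ) ≤ 122 / 100 * ((n : ℝ) / Real.log n) := by
    rw [hKc, hyn]; linarith
  have lowk : 665 / 1000 * ((n : ℝ) / Real.log n) ≤ (k : ℝ) := by
    rw [← hκ, hyn]; linarith
  have lowk' : 67 / 100 * ((n : ℝ) / Real.log n) ≤ (k : ℝ) := by
    rw [← hκ, hyn]; linarith
  have upk : (k : ℝ) ≤ 122 / 100 * ((n : ℝ) / Real.log n) := by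
    rw [← hκ, hyn]; linarith
  have cW : 99 / 100 * (n : ℝ) ≤ W.card := by rw [← hx]; linarith
  have cU : 99 / 100 * (n : ℝ) ≤ U.card := by rw [← hx]; linarith
  obtain ⟨pW0, pW1, pW2, dW1, dW2⟩ := H1 n g1 D0 r (k - Q.card) _ W hReg cW lowK upK
  obtain ⟨pU0, pU1, _, _, _⟩ := H1 n g1 D0 r (k - Q.card) _ U hReg cU lowK upK
  obtain ⟨pu0, pu1, _, _, _⟩ := H1 n g1 D0 r k _ U hReg cU lowk upk
  obtain ⟨rt1, rt2⟩ := H2 n g2 D0 r (k - Q.card) _ W U hReg lowK hsub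
  obtain ⟨sh1, sh2⟩ := H3 n g3 D0 r k Q.card _ U hReg cU lowk' upk (by
    rw [← hj, hyn]; linarith)
  simp only [eW, eU] at pW0 pW1 pW2 dW1 dW2 pU0 pU1 pu0 pu1 rt1 rt2 sh1 sh2
  rw [hKc] at dW1 rt2
  rw [hKc, ← hx] at dW2
  rw [← hj, ← hx, ← hκ] at sh2
  have n1' : k - 1 - Q.card = k - Q.card - 1 := by omega
  have n2' : k + 1 - Q.card = k - Q.card + 1 := by omega
  have tt0 : tt E Q (k - 1) = ((k - 1).descFactorial Q.card : ℝ) * PP E W (k - Q.card - 1) := by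
    rw [tt, n1', hW]
  have tt1 : tt E Q k = (k.descFactorial Q.card : ℝ) * PP E W (k - Q.card) := by
    rw [tt, hW]
  have tt2 : tt E Q (k + 1) = ((k + 1).descFactorial Q.card : ℝ) * PP E W (k - Q.card + 1) := by
    rw [tt, n2', hW]
  have f1 : (κ - j) * (k.descFactorial Q.card : ℝ) = κ * ((k - 1).descFactorial Q.card : ℝ) := by
    obtain ⟨k', rfl⟩ : ∃ k', k = k' + 1 := ⟨k - 1, by omega⟩
    have h := Nat.succ_descFactorial k' Q.card
    rw [← hKc, hκ, Nat.add_sub_cancel]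
    exact_mod_cast h
  have f2 : (κ + 1 - j) * ((k + 1).descFactorial Q.card : ℝ) =
      (κ + 1) * (k.descFactorial Q.card : ℝ) := by
    have h := Nat.succ_descFactorial k Q.card
    have h' : (((k + 1 - Q.card : ℕ)) : ℝ) = κ + 1 - j := by
      rw [Nat.cast_sub (by omega), hκ, hj]; push_cast; ring
    rw [← h', hκ]
    exact_mod_cast h
  have hda : ∀ m, Q.card ≤ m → (0:ℝ) < (m.descFactorial Q.card : ℝ) := fun m hm => by
    exact_mod_cast Nat.descFactorial_pos.2 hm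
  have hj1 : Q.card ≤ k - 1 := by
    have : (Q.card : ℝ) + 1 ≤ k := by
      have h5 : 20 * 1 ≤ s * z := mul_le_mul hs20 hz1 (by norm_num) hs0.le
      rw [← hj, ← hκ]; linarith
    have h6 : Q.card + 1 ≤ k := by exact_mod_cast this
    omega
  have a1p := hda (k - 1) hj1
  have a0p := hda k hjk
  have a2p := hda (k + 1) (by omega)
  obtain ⟨a0, ha0⟩ : ∃ a0 : ℝ, a0 = (k.descFactorial Q.card : ℝ) := ⟨_, rfl⟩
  obtain ⟨a1, ha1⟩ : ∃ a1 : ℝ, a1 = ((k - 1).descFactorial Q.card : ℝ) := ⟨_, rfl⟩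
  obtain ⟨a2, ha2⟩ : ∃ a2 : ℝ, a2 = ((k + 1).descFactorial Q.card : ℝ) := ⟨_, rfl⟩
  obtain ⟨p0, hp0⟩ : ∃ p0 : ℝ, p0 = PP E W (k - Q.card - 1) := ⟨_, rfl⟩
  obtain ⟨p1, hp1⟩ : ∃ p1 : ℝ, p1 = PP E W (k - Q.card) := ⟨_, rfl⟩
  obtain ⟨p2, hp2⟩ : ∃ p2 : ℝ, p2 = PP E W (k - Q.card + 1) := ⟨_, rfl⟩
  have q0 : 0 < p0 := by rw [hp0]; exact_mod_cast pW0
  have q1 : 0 < p1 := by rw [hp1]; exact_mod_cast pW1
  have q2 : 0 < p2 := by rw [hp2]; exact_mod_cast pW2
  rw [← hU, tt0, tt1, tt2, ← hl, ← hs, ← hx, ← hκ]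
  rw [← ha0, ← ha1] at f1
  rw [← ha0, ← ha2] at f2
  rw [← ha0] at a0p
  rw [← ha1] at a1p
  rw [← ha2] at a2p
  rw [← ha0, ← ha1, ← ha2, ← hp0, ← hp1, ← hp2]
  rw [← hp0, ← hp1, ← hp2] at dW1 dW2
  rw [← hp0, ← hp1] at rt1 rt2
  have hKpos : 0 < κ - j := by linarith
  have hj2k : 2 * j ≤ κ := by linarith
  have F1 := cmp_fac1 f1 f2 hj0 hKpos
  have F2 := cmp_fac2 f1 f2 hj0 hκ0 hj2k a1p a2p
  obtain ⟨F3, F4⟩ := cmp_fac3 f1 hj0 hκ0 hj2k a1p a0p
  have hx0 : 0 < x := by linarith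
  refine ⟨mul_pos a1p q0, mul_pos a0p q1, mul_pos a2p q2, ?_, ?_, ?_⟩
  · have hσ : 9988 / 10000 * (x / (κ * (κ + 1))) ≤
        999 / 1000 * ((W.card : ℝ) / ((κ - j) * (κ - j + 1))) := by
      have b1 : 0 < (κ - j) * (κ - j + 1) := mul_pos hKpos (by linarith)
      have b2 : (κ - j) * (κ - j + 1) ≤ κ * (κ + 1) :=
        mul_le_mul (by linarith) (by linarith) (by linarith) hκ0.le
      have b3 : 9988 / 10000 * x ≤ 999 / 1000 * (W.card : ℝ) := by linarith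
      rw [← mul_div_assoc, ← mul_div_assoc]
      exact div_le_div₀ (by positivity) b3 b1 b2
    have hd : (1 + 9988 / 10000 * (x / (κ * (κ + 1)))) * (p0 * p2) ≤ p1 ^ 2 := by
      refine le_trans (mul_le_mul_of_nonneg_right ?_ (mul_pos q0 q2).le) dW1
      linarith
    calc (1 + 9988 / 10000 * (x / (κ * (κ + 1)))) * (a1 * p0 * (a2 * p2))
        = (a1 * a2) * ((1 + 9988 / 10000 * (x / (κ * (κ + 1)))) * (p0 * p2)) := by ring
      _ ≤ a0 ^ 2 * p1 ^ 2 := by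
          refine mul_le_mul F1 hd ?_ (by positivity)
          positivity
      _ = _ := by ring
  · have hσ : 2 * j / κ ^ 2 + 1004 / 1000 * (x / (κ - j) ^ 2) ≤
        10042 / 10000 * (x / κ ^ 2) := by
      have b1 : x / (κ - j) ^ 2 ≤ 100001 / 100000 * (x / κ ^ 2) := by
        rw [← mul_div_assoc, div_le_div_iff₀ (by positivity) (by positivity)]
        have t1 : (999999 / 1000000 * κ) ^ 2 ≤ (κ - j) ^ 2 :=
          pow_le_pow_left₀ (by positivity) (by linarith) 2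
        have t2 : κ ^ 2 ≤ 100001 / 100000 * (κ - j) ^ 2 := by
          have t3 : (999999 / 1000000 * κ) ^ 2 = (999999 / 1000000) ^ 2 * κ ^ 2 := by ring
          rw [t3] at t1
          have t4 : 0 ≤ κ ^ 2 := sq_nonneg κ
          have t5 : κ ^ 2 ≤ 100001 / 100000 * ((999999 / 1000000) ^ 2 * κ ^ 2) := by linarith
          exact t5.trans (mul_le_mul_of_nonneg_left t1 (by norm_num))
        calc x * κ ^ 2 ≤ x * (100001 / 100000 * (κ - j) ^ 2) :=
              mul_le_mul_of_nonneg_left t2 hx0.le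
          _ = 100001 / 100000 * x * (κ - j) ^ 2 := by ring
      have b2 : 2 * j / κ ^ 2 ≤ 1 / 10000 * (x / κ ^ 2) := by
        rw [← mul_div_assoc]
        refine div_le_div_of_nonneg_right ?_ (by positivity)
        linarith
      have b3 : 0 < x / κ ^ 2 := by positivity
      linarith
    calc (a0 * p1) ^ 2 = a0 ^ 2 * p1 ^ 2 := by ring
      _ ≤ (Real.exp (2 * j / κ ^ 2) * (a1 * a2)) *
            (Real.exp (1004 / 1000 * (x / (κ - j) ^ 2)) * (p0 * p2)) :=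
          mul_le_mul F2 dW2 (by positivity) (by positivity)
      _ = Real.exp (2 * j / κ ^ 2 + 1004 / 1000 * (x / (κ - j) ^ 2)) *
            (a1 * p0 * (a2 * p2)) := by rw [Real.exp_add]; ring
      _ ≤ _ := mul_le_mul_of_nonneg_right (Real.exp_le_exp.2 hσ) (by positivity)
  · have he : 1 / 1000 * l / s = 1 / 1000 * (1 / z) := by rw [hz]; field_simp
    have he1 : 2 * ((U \ W).card : ℝ) / (κ - j) ≤ 1 / 1000 * l / s := by
      rw [he, mul_one_div, div_le_div_iff₀ hKpos hz0]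
      have t1 : ((U \ W).card : ℝ) * z ≤ (2 / 10000 * s) * z :=
        mul_le_mul_of_nonneg_right (c3.trans hq2) hz0.le
      have t2 : (2 / 10000 * s) * z = 2 / 10000 * (s * z) := by ring
      have t3 : 2 * ((U \ W).card : ℝ) * z = 2 * (((U \ W).card : ℝ) * z) := by ring
      rw [t2] at t1
      rw [t3]
      linarith
    have he2 : 2 * j * x / κ ^ 2 + 2 * j / κ ≤ 1 / 1000 * l / s := by
      have b1 : 2 * j / κ ≤ 4 / 100000 * (1 / z) := by
        rw [mul_one_div, div_le_div_iff₀ hκ0 hz0]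
        have h7 : j * z ≤ 1 / 100000 * z * z := mul_le_mul_of_nonneg_right hjz hz0.le
        have h8 : z * z ≤ s * z := mul_le_mul_of_nonneg_right hzs hz0.le
        have h9 : 2 * j * z = 2 * (j * z) := by ring
        have h10 : 1 / 100000 * z * z = 1 / 100000 * (z * z) := by ring
        rw [h10] at h7
        rw [h9]
        linarith
      have b2 : 2 * j * x / κ ^ 2 ≤ 5 / 100000 * (1 / z) := by
        rw [mul_one_div, div_le_div_iff₀ (by positivity) hz0]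
        have h7 : j * z ≤ 1 / 100000 * z * z := mul_le_mul_of_nonneg_right hjz hz0.le
        have h9 : (67 / 100 * (s * z)) ^ 2 ≤ κ ^ 2 := by
          exact pow_le_pow_left₀ (by positivity) hk1 2
        have h10 : j * z * x ≤ 1 / 100000 * z * z * x :=
          mul_le_mul_of_nonneg_right h7 hx0.le
        have h11 : 1 / 100000 * z * z * x = 1 / 100000 * (s * z) ^ 2 := by rw [← hsx]; ring
        have h12 : (67 / 100 * (s * z)) ^ 2 = (67 / 100) ^ 2 * (s * z) ^ 2 := by ring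
        have h13 : 2 * j * x * z = 2 * (j * z * x) := by ring
        have h14 : 0 ≤ (s * z) ^ 2 := sq_nonneg _
        rw [h12] at h9
        rw [h11] at h10
        rw [h13]
        linarith
      rw [he]
      have b3 : 0 < 1 / z := by positivity
      linarith
    exact cmp_rat a1p F3 F4 q0 q1 (by exact_mod_cast pu0) (by exact_mod_cast pu1)
      (by exact_mod_cast pU0) rt1 rt2 sh1 sh2 he1 he2

end Pool.Agent.Helper5.WD
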